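import Pool.Agent.Helper25.GT.Hedge
import Pool.Agent.Helper60.HC.Order

/-!
# Project GT (MP_766b49_co): the constant 27/8
-/

set_option autoImplicit false

namespace Pool.Agent.Helper25.GT

open Finset

/-- the choice of `d₀` -/
theorem param (δ : ℝ) (hδ : 0 < δ) (hδ1 : δ ≤ 1 / 16) : ∃ d₀ : ℕ, 2 ≤ d₀ ∧ ∀ d : ℕ, d₀ ≤ d →
    (1 - 2 * δ) * Real.log d ≤
      (1 - δ) * Real.log (δ / (4 / 9 * (Real.log d / d) * (3 / 2))) := by
  have h1 : ∀ᶠ y : ℝ in Filter.atTop, ‖Real.log y‖ ≤ δ / 2 * ‖id y‖ :=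
    Real.isLittleO_log_id_atTop.bound (by positivity)
  have h2 : ∀ᶠ y : ℝ in Filter.atTop, Real.log (2 / (3 * δ)) ≤ δ / 2 * y := by
    filter_upwards [Filter.eventually_ge_atTop (Real.log (2 / (3 * δ)) / (δ / 2))] with y hy
    rw [div_le_iff₀ (by positivity)] at hy
    linarith
  have h3 : ∀ᶠ y : ℝ in Filter.atTop, (1 : ℝ) ≤ y := Filter.eventually_ge_atTop 1
  have h4 : Filter.Tendsto (fun d : ℕ => Real.log (d : ℝ)) Filter.atTop Filter.atTop :=
    Real.tendsto_log_atTop.comp tendsto_natCast_atTop_atTop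
  obtain ⟨d₀, hd₀⟩ := Filter.eventually_atTop.1 (h4.eventually (h1.and (h2.and h3)))
  refine ⟨max d₀ 2, le_max_right _ _, fun d hd => ?_⟩
  obtain ⟨a1, a2, a3⟩ := hd₀ d (le_trans (le_max_left _ _) hd)
  have hd2 : 2 ≤ d := le_trans (le_max_right _ _) hd
  have hdpos : (0 : ℝ) < d := by
    have : 0 < d := by omega
    exact_mod_cast this
  set L : ℝ := Real.log (d : ℝ) with hL
  have hL0 : 0 < L := by linarith
  have hlogL : 0 ≤ Real.log L := Real.log_nonneg a3
  rw [Real.norm_of_nonneg hlogL, id, Real.norm_of_nonneg hL0.le] at a1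
  have e1 : δ / (4 / 9 * (L / d) * (3 / 2)) = d / (L * (2 / (3 * δ))) := by
    field_simp
    ring
  have h23 : (0 : ℝ) < 2 / (3 * δ) := by positivity
  rw [e1, Real.log_div hdpos.ne' (by positivity), Real.log_mul hL0.ne' h23.ne', ← hL]
  have h5 : Real.log L + Real.log (2 / (3 * δ)) ≤ δ * L := by linarith
  nlinarith

/-- `27/8` for triangle-free graphs. -/
theorem triangle_free (ε : ℝ) (hε : 0 < ε) : ∃ d₀ : ℕ, ∀ d : ℕ, d₀ ≤ d →
    ∀ (V : Type) [Fintype V] (G : SimpleGraph V), G.CliqueFree 3 →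
    (∀ S : Finset V, S.Nonempty → ∃ v ∈ S, by
      classical exact (S.filter (fun u => G.Adj v u)).card ≤ d) →
    ∃ w : Finset V → ℝ, (∀ I, 0 ≤ w I) ∧
      (∀ I, w I ≠ 0 → G.IsIndepSet (I : Set V)) ∧
      (∀ v : V, by classical exact 1 ≤ ∑ I ∈ Finset.univ.filter (fun I : Finset V => v ∈ I), w I) ∧
      ∑ I, w I ≤ (27 / 8 + ε) * d / Real.log d := by
  classical
  set δ : ℝ := min (1 / 16) (ε / 60) with hδdef
  have hδ : 0 < δ := lt_min (by norm_num) (by linarith)
  have hδ1 : δ ≤ 1 / 16 := min_le_left _ _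
  have hδ2 : δ ≤ ε / 60 := min_le_right _ _
  obtain ⟨d₀, hd₀, hpar⟩ := param δ hδ hδ1
  refine ⟨d₀, fun d hd V _ G hG hdeg => ?_⟩
  have hdeg' : ∀ S : Finset V, S.Nonempty → ∃ v ∈ S, (S.filter (fun u => G.Adj v u)).card ≤ d := by
    intro S hS
    obtain ⟨v, hv, h⟩ := hdeg S hS
    refine ⟨v, hv, ?_⟩
    convert h
  obtain ⟨ord, hord1, hord2, hord3⟩ := Helper60.HC.exists_order
    (fun v S => (S.filter (fun u => G.Adj v u)).card ≤ d) hdeg' (Fintype.card V) univ
    Finset.card_univ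
  have hinj : Function.Injective ord := by
    intro a b hab
    exact hord1 (Finset.mem_coe.2 (Finset.mem_univ a)) (Finset.mem_coe.2 (Finset.mem_univ b)) hab
  have hn : ∀ v, ord v < Fintype.card V := fun v => hord2 v (Finset.mem_univ v)
  have hcard : ∀ u : V, (univ.filter (fun v => G.Adj u v ∧ ord v < ord u)).card ≤ d := by
    intro u
    have h := hord3 u (Finset.mem_univ u)
    rw [Finset.filter_filter] at h
    refine le_trans (Finset.card_le_card ?_) h
    intro v hv
    simp only [Finset.mem_filter, Finset.mem_univ, true_and] at hv ⊢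
    exact ⟨hv.2.le, hv.1⟩
  have hd2 : 2 ≤ d := hd₀.trans hd
  have hdpos : (0 : ℝ) < d := by
    have : 0 < d := by omega
    exact_mod_cast this
  have hd1 : (1 : ℝ) < d := by
    have : 1 < d := by omega
    exact_mod_cast this
  set L : ℝ := Real.log (d : ℝ) with hL
  have hL0 : 0 < L := Real.log_pos hd1
  have hp := hpar d hd
  rw [← hL] at hp
  set p : ℝ := 4 / 9 * (L / d) with hpdef
  have hp0 : 0 < p := by positivity
  have hpd : p * d = 4 / 9 * L := by
    rw [hpdef]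
    field_simp
  set β : ℝ := 1 / (2 * d) with hβ
  have hβd : 1 + β * d = 3 / 2 := by
    rw [hβ]
    field_simp
    norm_num
  have hyp : Hyp (Nb G ord) p δ β (3 * δ) d :=
    { p0 := hp0
      k0 := hδ
      k1 := by linarith
      b0 := by positivity
      lo0 := by
        rw [hβd]
        have h1 : (1 - δ)⁻¹ - 1 = δ / (1 - δ) := by
          have : (1 - δ) ≠ 0 := by
            have : 0 < 1 - δ := by linarith
            exact this.ne'
          field_simp
          ring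
        rw [h1, ← mul_div_assoc, div_le_iff₀ (by linarith)]
        nlinarith
      lt := Nb_lt G ord
      card := card_Nb_le G ord hinj d hcard
      tri := Nb_disj G ord hinj hG }
  set D : ℝ := (1 - δ) * Real.log (δ / (p * (1 + β * d))) with hD
  have hDge : (1 - 2 * δ) * L ≤ D := by
    rw [hD, hβd]
    exact hp
  have h12 : 0 < 1 - 2 * δ := by linarith
  have hD0 : 0 < D := lt_of_lt_of_le (mul_pos h12 hL0) hDge
  have hell1 : (1 + β * d) - β * (D / (p * (1 + β * d))) ≤ 3 / 4 + 3 / 2 * δ := by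
    rw [hβd]
    have e1 : β * (D / (p * (3 / 2))) = 3 / 4 * (D / L) := by
      have e2 : β * (D / (p * (3 / 2))) = D / (3 * (p * d)) := by
        rw [hβ]
        field_simp
      rw [e2, hpd]
      field_simp
      norm_num
    rw [e1]
    have e3 : 1 - 2 * δ ≤ D / L := by
      rw [le_div_iff₀ hL0]
      exact hDge
    linarith
  have hpDd : p * d / D ≤ 4 / 9 / (1 - 2 * δ) := by
    rw [hpd, div_le_div_iff₀ hD0 h12]
    nlinarith
  set c : ℝ := p * (2 / 3 - 5 * δ) with hc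
  have hc1 : 0 < 2 / 3 - 5 * δ := by linarith
  have hc0 : 0 < c := mul_pos hp0 hc1
  have hcle : ∀ i, c ≤ EE (xx (Nb G ord) p δ β (3 * δ)) i
      (fun J => xx (Nb G ord) p δ β (3 * δ) i J) := by
    intro i
    refine le_trans ?_ (prob_bound hyp i D (3 / 4 + 3 / 2 * δ) hD hD0 (by positivity) hell1)
    rw [hc]
    refine mul_le_mul_of_nonneg_left ?_ hp0.le
    have h1 : (3 / 4 + 3 / 2 * δ) * (p * d / D) ≤
        (3 / 4 + 3 / 2 * δ) * (4 / 9 / (1 - 2 * δ)) :=
      mul_le_mul_of_nonneg_left hpDd (by positivity)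
    have h2 : (3 / 4 + 3 / 2 * δ) * (4 / 9 / (1 - 2 * δ)) ≤ 1 / 3 + 2 * δ := by
      rw [← mul_div_assoc, div_le_iff₀ h12]
      nlinarith
    linarith
  obtain ⟨w, w1, w2, w3, w4⟩ := exists_weights G ord hinj hn δ _ (good hyp) c hc0 hcle
  refine ⟨w, w1, w2, ?_, w4.trans ?_⟩
  · intro v
    convert w3 v
  · have e1 : c⁻¹ = (9 / 4 / (2 / 3 - 5 * δ)) * (d / L) := by
      rw [hc, hpdef]
      field_simp
    rw [e1, mul_div_assoc]
    refine mul_le_mul_of_nonneg_right ?_ (by positivity)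
    rw [div_le_iff₀ hc1]
    have h3 : 60 * δ ≤ ε := by linarith
    nlinarith

end Pool.Agent.Helper25.GT
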