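import Mathlib

/-!
# Project GT (MP_766b49_co): random independent sets, general part

The vertices are natural numbers, `N t` is the set of the earlier neighbours of `t`. The vertices are
treated in their order; `x t J` is the probability with which `t` is put into the random set, if
`J` is the set of the vertices chosen before.
-/

set_option autoImplicit false

namespace Pool.Agent.Helper25.GT

open Finset

/-- The expectation. -/
noncomputable def EE (x : ℕ → Finset ℕ → ℝ) : ℕ → (Finset ℕ → ℝ) → ℝ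
  | 0, g => g ∅
  | t + 1, g => EE x t fun J => x t J * g (insert t J) + (1 - x t J) * g J

/-- The martingale of the set `A`, for the probabilities `y`. -/
noncomputable def mm (y : ℕ → ℝ) (A J : Finset ℕ) (t : ℕ) : ℝ :=
  ∏ v ∈ range t, (if v ∈ A then (if v ∈ J then 0 else (1 - y v)⁻¹) else 1)

/-- Independent sets of vertices smaller than `t`. -/
def Ind (N : ℕ → Finset ℕ) (t : ℕ) (J : Finset ℕ) : Prop :=
  J ⊆ range t ∧ ∀ i ∈ J, ∀ j ∈ N i, j ∉ J

/-- Admissible families of probabilities. -/
structure Good (N : ℕ → Finset ℕ) (κ : ℝ) (x : ℕ → Finset ℕ → ℝ) : Prop where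
  k0 : 0 ≤ κ
  k1 : κ < 1
  lt : ∀ i, ∀ j ∈ N i, j < i
  nonneg : ∀ t J, 0 ≤ x t J
  le : ∀ t J, x t J ≤ κ
  zero : ∀ t J, ∀ j ∈ N t, j ∈ J → x t J = 0
  loc : ∀ t J J', (∀ v < t, (v ∈ J ↔ v ∈ J')) → x t J = x t J'

theorem mm_congr (y y' : ℕ → ℝ) (A J J' : Finset ℕ) (t : ℕ) (hy : ∀ v < t, y v = y' v)
    (hJ : ∀ v < t, (v ∈ J ↔ v ∈ J')) : mm y A J t = mm y' A J' t := by
  unfold mm
  refine prod_congr rfl fun v hv => ?_
  have hvt := mem_range.1 hv
  rw [hy v hvt]
  simp only [hJ v hvt]

theorem mm_succ (y : ℕ → ℝ) (A J : Finset ℕ) (t : ℕ) :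
    mm y A J (t + 1) = mm y A J t * (if t ∈ A then (if t ∈ J then 0 else (1 - y t)⁻¹) else 1) := by
  unfold mm
  rw [prod_range_succ]

theorem mm_zero (y : ℕ → ℝ) (A J : Finset ℕ) : mm y A J 0 = 1 := by simp [mm]

theorem mem_insert_lt (t : ℕ) (J : Finset ℕ) : ∀ v < t, (v ∈ insert t J ↔ v ∈ J) := by
  intro v hv
  rw [mem_insert]
  constructor
  · rintro (h | h)
    · omega
    · exact h
  · exact fun h => Or.inr h

theorem not_mem_of_subset_range {t : ℕ} {J : Finset ℕ} (h : J ⊆ range t) : t ∉ J := by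
  intro hm
  have := mem_range.1 (h hm)
  omega

theorem mm_nonneg (y : ℕ → ℝ) (A J : Finset ℕ) (t : ℕ) (hy : ∀ v < t, y v ≤ 1) :
    0 ≤ mm y A J t := by
  unfold mm
  refine prod_nonneg fun v hv => ?_
  have := hy v (mem_range.1 hv)
  split_ifs
  · exact le_rfl
  · exact inv_nonneg.2 (by linarith)
  · exact zero_le_one

/-- `mm` does not change after the largest element of `A` -/
theorem mm_stable (y : ℕ → ℝ) (A J : Finset ℕ) (s : ℕ) (hA : ∀ v ∈ A, v < s) :
    ∀ t, s ≤ t → mm y A J t = mm y A J s := by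
  intro t hst
  induction t, hst using Nat.le_induction with
  | base => rfl
  | succ t hst ih =>
    rw [mm_succ, if_neg, mul_one, ih]
    intro h
    have := hA t h
    omega

section Good

variable {N : ℕ → Finset ℕ} {κ : ℝ} {x : ℕ → Finset ℕ → ℝ}

theorem EE_mono (H : Good N κ x) (t : ℕ) : ∀ (g g' : Finset ℕ → ℝ),
    (∀ J, Ind N t J → g J ≤ g' J) → EE x t g ≤ EE x t g' := by
  induction t with
  | zero =>
    intro g g' h
    exact h ∅ ⟨by simp, by simp⟩
  | succ t ih =>
    intro g g' h
    refine ih _ _ fun J hJ => ?_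
    have hx0 := H.nonneg t J
    have hx1 := H.le t J
    have hk1 := H.k1
    have htJ := not_mem_of_subset_range hJ.1
    have h1 : g J ≤ g' J := h J ⟨hJ.1.trans (range_subset_range.2 (Nat.le_succ t)), hJ.2⟩
    have h2 : x t J * g (insert t J) ≤ x t J * g' (insert t J) := by
      by_cases hex : ∃ j ∈ N t, j ∈ J
      · obtain ⟨j, hj, hjJ⟩ := hex
        rw [H.zero t J j hj hjJ]
        simp
      · refine mul_le_mul_of_nonneg_left (h _ ⟨?_, ?_⟩) hx0
        · intro i hi
          rcases mem_insert.1 hi with rfl | hi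
          · exact mem_range.2 (Nat.lt_succ_self _)
          · exact mem_range.2 (Nat.lt_succ_of_lt (mem_range.1 (hJ.1 hi)))
        · intro i hi j hj hjm
          rcases mem_insert.1 hi with hi1 | hi1
          · rcases mem_insert.1 hjm with hj1 | hj1
            · have h3 := H.lt _ _ hj
              omega
            · exact hex ⟨j, hi1 ▸ hj, hj1⟩
          · rcases mem_insert.1 hjm with hj1 | hj1
            · have h3 := H.lt _ _ hj
              have h4 := mem_range.1 (hJ.1 hi1)
              omega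
            · exact hJ.2 i hi1 j hj hj1
    have h3 : (1 - x t J) * g J ≤ (1 - x t J) * g' J :=
      mul_le_mul_of_nonneg_left h1 (by linarith)
    linarith

theorem EE_congr (H : Good N κ x) (t : ℕ) (g g' : Finset ℕ → ℝ)
    (h : ∀ J, Ind N t J → g J = g' J) : EE x t g = EE x t g' :=
  le_antisymm (EE_mono H t g g' fun J hJ => (h J hJ).le)
    (EE_mono H t g' g fun J hJ => (h J hJ).ge)

theorem EE_add (t : ℕ) : ∀ (g g' : Finset ℕ → ℝ),
    EE x t (fun J => g J + g' J) = EE x t g + EE x t g' := by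
  induction t with
  | zero => intro g g'; rfl
  | succ t ih =>
    intro g g'
    show EE x t _ = EE x t _ + EE x t _
    rw [← ih]
    congr 1
    funext J
    ring

theorem EE_const_mul (t : ℕ) : ∀ (c : ℝ) (g : Finset ℕ → ℝ),
    EE x t (fun J => c * g J) = c * EE x t g := by
  induction t with
  | zero => intro c g; rfl
  | succ t ih =>
    intro c g
    show EE x t _ = c * EE x t _
    rw [← ih]
    congr 1
    funext J
    ring

theorem EE_const (t : ℕ) : ∀ (c : ℝ), EE x t (fun _ => c) = c := by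
  induction t with
  | zero => intro c; rfl
  | succ t ih =>
    intro c
    show EE x t _ = c
    rw [← ih c]
    congr 1
    funext J
    rw [ih c]
    ring

theorem EE_sum {ι : Type*} (t : ℕ) (s : Finset ι) (g : ι → Finset ℕ → ℝ) :
    EE x t (fun J => ∑ i ∈ s, g i J) = ∑ i ∈ s, EE x t (g i) := by
  classical
  induction s using Finset.induction_on with
  | empty => simpa using EE_const (x := x) t 0
  | insert a s ha ih =>
    rw [Finset.sum_insert ha, ← ih, ← EE_add]
    congr 1
    funext J
    rw [Finset.sum_insert ha]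

/-- A function of the first `s` choices. -/
theorem EE_stable (H : Good N κ x) (s : ℕ) (g : Finset ℕ → ℝ)
    (hg : ∀ t, s ≤ t → ∀ J, J ⊆ range t → g (insert t J) = g J)
    (t : ℕ) (hst : s ≤ t) : EE x t g = EE x s g := by
  induction t, hst using Nat.le_induction with
  | base => rfl
  | succ t hst ih =>
    rw [← ih]
    show EE x t _ = _
    refine EE_congr H t _ _ fun J hJ => ?_
    rw [hg t hst J hJ.1]
    ring

/-- families which decrease in the mean -/
theorem EE_step_le (H : Good N κ x) (g : ℕ → Finset ℕ → ℝ) (s : ℕ)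
    (hg : ∀ t < s, ∀ J, Ind N t J →
      x t J * g (t + 1) (insert t J) + (1 - x t J) * g (t + 1) J ≤ g t J) :
    EE x s (g s) ≤ g 0 ∅ := by
  induction s with
  | zero => exact le_rfl
  | succ s ih =>
    refine le_trans ?_ (ih fun t ht => hg t (Nat.lt_succ_of_lt ht))
    exact EE_mono H s _ _ fun J hJ => hg s (Nat.lt_succ_self s) J hJ

/-- families which are constant in the mean -/
theorem EE_step_eq (H : Good N κ x) (g : ℕ → Finset ℕ → ℝ) (s : ℕ)
    (hg : ∀ t < s, ∀ J, Ind N t J →
      x t J * g (t + 1) (insert t J) + (1 - x t J) * g (t + 1) J = g t J) :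
    EE x s (g s) = g 0 ∅ := by
  induction s with
  | zero => rfl
  | succ s ih =>
    rw [← ih fun t ht => hg t (Nat.lt_succ_of_lt ht)]
    exact EE_congr H s _ _ fun J hJ => hg s (Nat.lt_succ_self s) J hJ

/-- The martingale of the set `A`. -/
noncomputable def MM (x : ℕ → Finset ℕ → ℝ) (A : Finset ℕ) (t : ℕ) (J : Finset ℕ) : ℝ :=
  mm (fun v => x v J) A J t

theorem MM_nonneg (H : Good N κ x) (A : Finset ℕ) (t : ℕ) (J : Finset ℕ) : 0 ≤ MM x A t J :=
  mm_nonneg _ _ _ _ fun v _ => (H.le v J).trans H.k1.le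

theorem MM_zero (A J : Finset ℕ) : MM x A 0 J = 1 := mm_zero _ _ _

theorem MM_local (H : Good N κ x) (A : Finset ℕ) (t : ℕ) (J J' : Finset ℕ)
    (h : ∀ v < t, (v ∈ J ↔ v ∈ J')) : MM x A t J = MM x A t J' :=
  mm_congr _ _ _ _ _ _ (fun v hv => H.loc v J J' fun w hw => h w (hw.trans hv)) h

theorem MM_out (A : Finset ℕ) (t : ℕ) (J : Finset ℕ) (hJ : t ∉ J) :
    MM x A (t + 1) J = MM x A t J * (if t ∈ A then (1 - x t J)⁻¹ else 1) := by
  unfold MM
  rw [mm_succ, if_neg hJ]

theorem MM_in (H : Good N κ x) (A : Finset ℕ) (t : ℕ) (J : Finset ℕ) :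
    MM x A (t + 1) (insert t J) = MM x A t J * (if t ∈ A then 0 else 1) := by
  have h1 := MM_local H A t (insert t J) J (mem_insert_lt t J)
  unfold MM at h1 ⊢
  rw [mm_succ, h1, if_pos (mem_insert_self t J)]

theorem one_sub_pos (H : Good N κ x) (t : ℕ) (J : Finset ℕ) : 0 < 1 - x t J := by
  have := H.le t J
  have := H.k1
  linarith

/-- The martingale property. -/
theorem EE_mart (H : Good N κ x) (A : Finset ℕ) (s : ℕ) (g : Finset ℕ → ℝ)
    (hg : ∀ t, s ≤ t → ∀ J, J ⊆ range t → g (insert t J) = g J)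
    (t : ℕ) (hst : s ≤ t) :
    EE x t (fun J => MM x A t J * g J) = EE x s (fun J => MM x A s J * g J) := by
  induction t, hst using Nat.le_induction with
  | base => rfl
  | succ t hst ih =>
    rw [← ih]
    show EE x t _ = _
    refine EE_congr H t _ _ fun J hJ => ?_
    have htJ := not_mem_of_subset_range hJ.1
    have hne := (one_sub_pos H t J).ne'
    beta_reduce
    rw [hg t hst J hJ.1, MM_in H, MM_out A t J htJ]
    by_cases hA : t ∈ A
    · rw [if_pos hA, if_pos hA]
      field_simp
      ring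
    · rw [if_neg hA, if_neg hA]
      ring

theorem EE_MM (H : Good N κ x) (A : Finset ℕ) (t : ℕ) : EE x t (fun J => MM x A t J) = 1 := by
  have h := EE_mart H A 0 (fun _ => 1) (fun _ _ _ _ => rfl) t (Nat.zero_le t)
  simp only [mul_one] at h
  rw [h]
  exact MM_zero _ _

theorem MM_le_exp (H : Good N κ x) (A : Finset ℕ) (t : ℕ)
    (hA : ∀ v ∈ A, v < t) (J : Finset ℕ) :
    MM x A t J ≤ Real.exp ((∑ v ∈ A, x v J) / (1 - κ)) := by
  have hκ1 := H.k1
  have hκ' : 0 < 1 - κ := by linarith
  have h1 : MM x A t J ≤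
      ∏ v ∈ range t, (if v ∈ A then Real.exp (x v J / (1 - κ)) else 1) := by
    unfold MM mm
    refine prod_le_prod ?_ ?_
    · intro v _
      have := one_sub_pos H v J
      split_ifs
      · exact le_refl 0
      · exact inv_nonneg.2 (by linarith)
      · exact zero_le_one
    · intro v _
      have hx0 := H.nonneg v J
      have hx1 := H.le v J
      have hpos := one_sub_pos H v J
      split_ifs
      · exact (Real.exp_pos _).le
      · have e : (1 - x v J)⁻¹ = 1 + x v J / (1 - x v J) := by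
          field_simp
          ring
        rw [e]
        have h2 : x v J / (1 - x v J) ≤ x v J / (1 - κ) :=
          div_le_div_of_nonneg_left hx0 hκ' (by linarith)
        have h3 := Real.add_one_le_exp (x v J / (1 - κ))
        linarith
      · exact le_refl 1
  refine h1.trans (le_of_eq ?_)
  rw [prod_ite, prod_const_one, mul_one, ← Real.exp_sum, sum_div]
  congr 1
  refine sum_congr ?_ fun _ _ => rfl
  ext v
  simp only [mem_filter, mem_range]
  exact ⟨fun h => h.2, fun h => ⟨hA v h, h⟩⟩

/-- The distribution of the random independent set. -/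
theorem exists_distribution (H : Good N κ x) (n : ℕ) (c : ℝ)
    (hc : ∀ i < n, c ≤ EE x i (fun J => x i J)) :
    ∃ w : Finset ℕ → ℝ, (∀ J, 0 ≤ w J) ∧ (∀ J, w J ≠ 0 → Ind N n J) ∧
      ∑ J ∈ (range n).powerset, w J = 1 ∧
      ∀ i < n, c ≤ ∑ J ∈ (range n).powerset.filter (fun J => i ∈ J), w J := by
  refine ⟨fun J => EE x n (fun J' => if J' = J then 1 else 0), ?_, ?_, ?_, ?_⟩
  · intro J
    have h := EE_mono H n (fun _ => 0) (fun J' => if J' = J then 1 else 0)
      (fun J' _ => by beta_reduce; split_ifs <;> norm_num)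
    rwa [EE_const] at h
  · intro J hJ
    by_contra hI
    refine hJ ?_
    have h := EE_congr H n (fun J' => if J' = J then 1 else 0) (fun _ => 0)
      (fun J' hJ' => by
        have hne : J' ≠ J := fun e => hI (e ▸ hJ')
        simp [hne])
    beta_reduce
    rw [h, EE_const]
  · rw [← EE_sum]
    have h := EE_congr H n
      (fun J' => ∑ J ∈ (range n).powerset, if J' = J then (1 : ℝ) else 0) (fun _ => 1)
      (fun J' hJ' => by
        beta_reduce
        rw [sum_ite_eq, if_pos (mem_powerset.2 hJ'.1)])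
    rw [h, EE_const]
  · intro i hi
    refine (hc i hi).trans ?_
    rw [← EE_sum]
    have h := EE_congr H n
      (fun J' => ∑ J ∈ (range n).powerset.filter (fun J => i ∈ J), if J' = J then (1 : ℝ) else 0)
      (fun J' => if i ∈ J' then (1 : ℝ) else 0)
      (fun J' hJ' => by
        beta_reduce
        rw [sum_ite_eq]
        simp only [mem_filter, mem_powerset, hJ'.1, true_and])
    rw [h]
    have hst := EE_stable H (i + 1) (fun J' => if i ∈ J' then (1 : ℝ) else 0)
      (fun t ht J _ => by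
        beta_reduce
        simp only [mem_insert_lt t J i (by omega)]) n hi
    rw [hst]
    show _ ≤ EE x i _
    refine EE_mono H i _ _ fun J hJ => ?_
    have htJ := not_mem_of_subset_range hJ.1
    simp [htJ]

end Good

/-- the earlier neighbours -/
noncomputable def Nb {V : Type} [Fintype V] (G : SimpleGraph V) (ord : V → ℕ) : ℕ → Finset ℕ := by
  classical
  exact fun i =>
    (univ.filter (fun v : V => ∃ u : V, ord u = i ∧ G.Adj u v ∧ ord v < ord u)).image ord

open Classical in
theorem mem_Nb {V : Type} [Fintype V] (G : SimpleGraph V) (ord : V → ℕ) (i j : ℕ) :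
    j ∈ Nb G ord i ↔ ∃ u v : V, ord u = i ∧ ord v = j ∧ G.Adj u v ∧ ord v < ord u := by
  unfold Nb
  simp only [mem_image, mem_filter, mem_univ, true_and]
  constructor
  · rintro ⟨v, ⟨u, hu, hadj, hlt⟩, hv⟩
    exact ⟨u, v, hu, hv, hadj, hlt⟩
  · rintro ⟨u, v, hu, hv, hadj, hlt⟩
    exact ⟨v, ⟨u, hu, hadj, hlt⟩, hv⟩

theorem Nb_lt {V : Type} [Fintype V] (G : SimpleGraph V) (ord : V → ℕ) :
    ∀ i, ∀ j ∈ Nb G ord i, j < i := by
  intro i j hj
  obtain ⟨u, v, hu, hv, _, hlt⟩ := (mem_Nb G ord i j).1 hj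
  omega

/-- triangle-free graphs -/
theorem Nb_disj {V : Type} [Fintype V] (G : SimpleGraph V) (ord : V → ℕ)
    (hinj : Function.Injective ord) (hG : G.CliqueFree 3) :
    ∀ i, ∀ j ∈ Nb G ord i, ∀ k ∈ Nb G ord i, k ∉ Nb G ord j := by
  classical
  intro i j hj k hk hjk
  obtain ⟨u, v, hu, hv, h1, _⟩ := (mem_Nb G ord i j).1 hj
  obtain ⟨u', w, hu', hw, h2, _⟩ := (mem_Nb G ord i k).1 hk
  obtain ⟨v', w', hv', hw', h3, _⟩ := (mem_Nb G ord j k).1 hjk
  have e1 : u' = u := hinj (by omega)
  have e2 : v' = v := hinj (by omega)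
  have e3 : w' = w := hinj (by omega)
  subst e1 e2 e3
  exact hG {u', v', w'} (SimpleGraph.is3Clique_triple_iff.2 ⟨h1, h2, h3⟩)

open Classical in
theorem card_Nb_le {V : Type} [Fintype V] (G : SimpleGraph V) (ord : V → ℕ)
    (hinj : Function.Injective ord) (d : ℕ)
    (hd : ∀ u : V, (univ.filter (fun v => G.Adj u v ∧ ord v < ord u)).card ≤ d) (i : ℕ) :
    (Nb G ord i).card ≤ d := by
  by_cases hi : Nb G ord i = ∅
  · rw [hi]
    simp
  · obtain ⟨j, hj⟩ := nonempty_iff_ne_empty.2 hi
    obtain ⟨u, v, hu, _⟩ := (mem_Nb G ord i j).1 hj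
    refine le_trans ?_ (hd u)
    have e : Nb G ord i = (univ.filter (fun v => G.Adj u v ∧ ord v < ord u)).image ord := by
      ext j
      rw [mem_Nb]
      simp only [mem_image, mem_filter, mem_univ, true_and]
      constructor
      · rintro ⟨u', v, hu', hv, hadj, hlt⟩
        have := hinj (hu'.trans hu.symm)
        subst this
        exact ⟨v, ⟨hadj, hlt⟩, hv⟩
      · rintro ⟨v, ⟨hadj, hlt⟩, hv⟩
        exact ⟨u, v, hu, hv, hadj, hlt⟩
    rw [e]
    exact card_image_le

open Classical in
/-- Fractional colourings. -/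
theorem exists_weights {V : Type} [Fintype V] (G : SimpleGraph V) (ord : V → ℕ)
    (hinj : Function.Injective ord) (hn : ∀ v, ord v < Fintype.card V) (κ : ℝ)
    (x : ℕ → Finset ℕ → ℝ) (H : Good (Nb G ord) κ x) (c : ℝ) (hc0 : 0 < c)
    (hc : ∀ i, c ≤ EE x i (fun J => x i J)) :
    ∃ w : Finset V → ℝ, (∀ I, 0 ≤ w I) ∧
        (∀ I, w I ≠ 0 → G.IsIndepSet (I : Set V)) ∧
        (∀ v : V, 1 ≤ ∑ I ∈ Finset.univ.filter (fun I : Finset V => v ∈ I), w I) ∧
        ∑ I, w I ≤ c⁻¹ := by
  set n : ℕ := Fintype.card V with hndef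
  obtain ⟨μ, hμ0, hμ1, hμ2, hμ3⟩ := exists_distribution H n c fun i _ => hc i
  -- the image of the ordering
  have himg : (univ : Finset V).image ord = range n := by
    refine eq_of_subset_of_card_le ?_ ?_
    · intro i hi
      obtain ⟨v, _, rfl⟩ := mem_image.1 hi
      exact mem_range.2 (hn v)
    · rw [card_image_of_injective _ hinj, card_range, card_univ]
  have hback : ∀ J ∈ (range n).powerset, (univ.filter fun v => ord v ∈ J).image ord = J := by
    intro J hJ
    rw [mem_powerset] at hJ
    ext i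
    simp only [mem_image, mem_filter, mem_univ, true_and]
    constructor
    · rintro ⟨v, hv, rfl⟩
      exact hv
    · intro hi
      have h1 := hJ hi
      rw [← himg] at h1
      obtain ⟨v, _, rfl⟩ := mem_image.1 h1
      exact ⟨v, hi, rfl⟩
  have hforth : ∀ I : Finset V, (univ.filter fun v => ord v ∈ I.image ord) = I := by
    intro I
    ext v
    simp only [mem_image, mem_filter, mem_univ, true_and]
    constructor
    · rintro ⟨w, hw, h⟩
      rwa [hinj h] at hw
    · exact fun hv => ⟨v, hv, rfl⟩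
  have hIm : ∀ I : Finset V, I.image ord ∈ (range n).powerset := by
    intro I
    rw [mem_powerset, ← himg]
    exact image_subset_image (subset_univ I)
  have hS1 : ∑ I : Finset V, μ (I.image ord) = 1 := by
    rw [← hμ2]
    refine sum_nbij' (fun I => I.image ord) (fun J => univ.filter fun v => ord v ∈ J)
      (fun I _ => hIm I) (fun J _ => mem_univ _) (fun I _ => hforth I) hback
      (fun I _ => rfl)
  have hS2 : ∀ v : V, c ≤
      ∑ I ∈ Finset.univ.filter (fun I : Finset V => v ∈ I), μ (I.image ord) := by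
    intro v
    refine (hμ3 (ord v) (hn v)).trans (le_of_eq ?_)
    symm
    refine sum_nbij' (fun I => I.image ord) (fun J => univ.filter fun v => ord v ∈ J)
      ?_ ?_ (fun I _ => hforth I) (fun J hJ => hback J (mem_filter.1 hJ).1)
      (fun I _ => rfl)
    · intro I hI
      exact mem_filter.2 ⟨hIm I, mem_image_of_mem ord (mem_filter.1 hI).2⟩
    · intro J hJ
      refine mem_filter.2 ⟨mem_univ _, mem_filter.2 ⟨mem_univ _, ?_⟩⟩
      exact (mem_filter.1 hJ).2
  refine ⟨fun I => μ (I.image ord) * c⁻¹, ?_, ?_, ?_, ?_⟩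
  · intro I
    exact mul_nonneg (hμ0 _) (inv_nonneg.2 hc0.le)
  · intro I hI
    have h1 : μ (I.image ord) ≠ 0 := fun h => hI (by beta_reduce; rw [h, zero_mul])
    have h2 := (hμ1 _ h1).2
    intro a ha b hb hab hadj
    rcases lt_trichotomy (ord a) (ord b) with h | h | h
    · exact h2 (ord b) (mem_image_of_mem ord (mem_coe.1 hb)) (ord a)
        ((mem_Nb G ord _ _).2 ⟨b, a, rfl, rfl, hadj.symm, h⟩)
        (mem_image_of_mem ord (mem_coe.1 ha))
    · exact hab (hinj h)
    · exact h2 (ord a) (mem_image_of_mem ord (mem_coe.1 ha)) (ord b)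
        ((mem_Nb G ord _ _).2 ⟨a, b, rfl, rfl, hadj, h⟩)
        (mem_image_of_mem ord (mem_coe.1 hb))
  · intro v
    rw [← sum_mul, ← div_eq_mul_inv, one_le_div hc0]
    exact hS2 v
  · rw [← sum_mul, hS1, one_mul]

end Pool.Agent.Helper25.GT
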