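import Pool.Agent.Helper25.GT.Gen

/-!
# Project GT (MP_766b49_co): the hedged process

`N t` is the set of the earlier neighbours of `t`. The probability of `t` is `p M_t h_t`, where `M_t` is
the product of `0` or `1 / (1 - x_v)` over the earlier neighbours `v`, and `h_t` is an affine function of
the sum of the martingales of the earlier neighbours of `t`, stopped when it is near `0`.
-/

set_option autoImplicit false

namespace Pool.Agent.Helper25.GT

open Finset

/-- the sum over the earlier neighbours `v` of `u` of the martingales of `v` at the time `min s v` -/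
noncomputable def ss (N : ℕ → Finset ℕ) (y : ℕ → ℝ) (J : Finset ℕ) (u s : ℕ) : ℝ :=
  ∑ v ∈ N u, mm y (N v) J (min s v)

/-- the hedge of `u` at the time `s` -/
noncomputable def hh (N : ℕ → Finset ℕ) (β lo : ℝ) (y : ℕ → ℝ) (J : Finset ℕ) (u : ℕ) : ℕ → ℝ
  | 0 => 1
  | s + 1 => if hh N β lo y J u s < lo then hh N β lo y J u s
      else hh N β lo y J u s - β * (ss N y J u (s + 1) - ss N y J u s)

/-- the probability of `t` -/
noncomputable def val (N : ℕ → Finset ℕ) (p κ β lo : ℝ) (y : ℕ → ℝ) (J : Finset ℕ) (t : ℕ) : ℝ :=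
  if lo ≤ hh N β lo y J t t ∧ p * mm y (N t) J t * hh N β lo y J t t ≤ κ then
    p * mm y (N t) J t * hh N β lo y J t t
  else 0

/-- the process -/
noncomputable def xx (N : ℕ → Finset ℕ) (p κ β lo : ℝ) : ℕ → Finset ℕ → ℝ
  | t, J => val N p κ β lo (fun v => if _h : v < t then xx N p κ β lo v J else 0) J t
  termination_by t => t

section congr

variable (N : ℕ → Finset ℕ) (p κ β lo : ℝ)

theorem ss_congr (y y' : ℕ → ℝ) (J J' : Finset ℕ) (u s : ℕ) (hy : ∀ v < s, y v = y' v)
    (hJ : ∀ v < s, (v ∈ J ↔ v ∈ J')) : ss N y J u s = ss N y' J' u s := by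
  unfold ss
  refine sum_congr rfl fun v _ => ?_
  refine mm_congr _ _ _ _ _ _ (fun w hw => hy w ?_) (fun w hw => hJ w ?_)
  · exact lt_of_lt_of_le hw (min_le_left _ _)
  · exact lt_of_lt_of_le hw (min_le_left _ _)

theorem hh_congr (y y' : ℕ → ℝ) (J J' : Finset ℕ) (u s : ℕ) (hy : ∀ v < s, y v = y' v)
    (hJ : ∀ v < s, (v ∈ J ↔ v ∈ J')) : hh N β lo y J u s = hh N β lo y' J' u s := by
  induction s with
  | zero => rfl
  | succ s ih =>
    have h1 := ih (fun v hv => hy v (Nat.lt_succ_of_lt hv)) (fun v hv => hJ v (Nat.lt_succ_of_lt hv))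
    rw [hh, hh, h1, ss_congr N y y' J J' u (s + 1) hy hJ,
      ss_congr N y y' J J' u s (fun v hv => hy v (Nat.lt_succ_of_lt hv))
        (fun v hv => hJ v (Nat.lt_succ_of_lt hv))]

theorem val_congr (y y' : ℕ → ℝ) (J J' : Finset ℕ) (t : ℕ) (hy : ∀ v < t, y v = y' v)
    (hJ : ∀ v < t, (v ∈ J ↔ v ∈ J')) : val N p κ β lo y J t = val N p κ β lo y' J' t := by
  unfold val
  rw [hh_congr N β lo y y' J J' t t hy hJ, mm_congr y y' (N t) J J' t hy hJ]

theorem xx_eq (t : ℕ) (J : Finset ℕ) :
    xx N p κ β lo t J = val N p κ β lo (fun v => xx N p κ β lo v J) J t := by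
  rw [xx]
  refine val_congr N p κ β lo _ _ _ _ t (fun v hv => ?_) fun v _ => Iff.rfl
  rw [dif_pos hv]

theorem xx_loc (t : ℕ) (J J' : Finset ℕ) (h : ∀ v < t, (v ∈ J ↔ v ∈ J')) :
    xx N p κ β lo t J = xx N p κ β lo t J' := by
  induction t using Nat.strong_induction_on with
  | _ t ih =>
    rw [xx_eq, xx_eq]
    exact val_congr N p κ β lo _ _ _ _ t (fun v hv => ih v hv fun w hw => h w (hw.trans hv)) h

end congr

/-- bounds of the hedge -/
theorem hh_bounds (N : ℕ → Finset ℕ) (κ β lo : ℝ) (y : ℕ → ℝ) (J : Finset ℕ) (u : ℕ) (hκ : 0 ≤ κ)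
    (hκ1 : κ < 1) (hβ : 0 ≤ β) (hlo : (1 + β * (N u).card) * ((1 - κ)⁻¹ - 1) ≤ lo)
    (hN : ∀ i, ∀ j ∈ N i, j < i) (s : ℕ) (hy0 : ∀ v < s, 0 ≤ y v) (hy : ∀ v < s, y v ≤ κ) :
    0 ≤ hh N β lo y J u s ∧ hh N β lo y J u s ≤ 1 + β * (N u).card ∧
      (lo ≤ hh N β lo y J u s →
        hh N β lo y J u s = 1 + β * (N u).card - β * ss N y J u s) := by
  have hκ' : 0 < 1 - κ := by linarith
  have hc0 : (0 : ℝ) ≤ (N u).card := Nat.cast_nonneg _
  have hc1 : 0 ≤ β * (N u).card := mul_nonneg hβ hc0
  induction s with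
  | zero =>
    have h0 : ss N y J u 0 = (N u).card := by
      unfold ss
      rw [sum_congr rfl fun v _ => by rw [Nat.zero_min, mm_zero]]
      simp
    refine ⟨zero_le_one, by rw [hh]; linarith, fun _ => ?_⟩
    rw [hh, h0]
    ring
  | succ s ih =>
    obtain ⟨i1, i2, i3⟩ := ih (fun v hv => hy0 v (Nat.lt_succ_of_lt hv))
      (fun v hv => hy v (Nat.lt_succ_of_lt hv))
    by_cases hst : hh N β lo y J u s < lo
    · have e : hh N β lo y J u (s + 1) = hh N β lo y J u s := by rw [hh, if_pos hst]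
      rw [e]
      exact ⟨i1, i2, fun h => absurd hst (not_lt.2 h)⟩
    · have e : hh N β lo y J u (s + 1) =
          hh N β lo y J u s - β * (ss N y J u (s + 1) - ss N y J u s) := by rw [hh, if_neg hst]
      push Not at hst
      have i4 := i3 hst
      have hmn : ∀ v, ∀ r ≤ s + 1, 0 ≤ mm y (N v) J r := fun v r hr =>
        mm_nonneg _ _ _ _ fun w hw => (hy w (lt_of_lt_of_le hw hr)).trans hκ1.le
      have hs1 : 0 ≤ ss N y J u (s + 1) :=
        sum_nonneg fun v _ => hmn v _ (min_le_left _ _)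
      have hs2 : ss N y J u (s + 1) ≤ (1 - κ)⁻¹ * ss N y J u s := by
        unfold ss
        rw [mul_sum]
        refine sum_le_sum fun v _ => ?_
        have hge1 : 1 ≤ (1 - κ)⁻¹ := (one_le_inv₀ hκ').2 (by linarith)
        rcases le_or_gt v s with hv | hv
        · have e1 : min (s + 1) v = v := by omega
          have e2 : min s v = v := by omega
          rw [e1, e2]
          have := hmn v v (by omega)
          nlinarith
        · have e1 : min (s + 1) v = s + 1 := by omega
          have e2 : min s v = s := by omega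
          rw [e1, e2, mm_succ]
          have h0 := hmn v s (by omega)
          have h1 : (if s ∈ N v then (if s ∈ J then 0 else (1 - y s)⁻¹) else 1) ≤ (1 - κ)⁻¹ := by
            have h2 := hy s (Nat.lt_succ_self s)
            split_ifs
            · exact (inv_pos.2 hκ').le
            · exact inv_anti₀ hκ' (by linarith)
            · exact hge1
          rw [mul_comm]
          exact mul_le_mul_of_nonneg_right h1 h0
      rw [e]
      refine ⟨?_, ?_, fun _ => ?_⟩
      · have h1 : β * (ss N y J u (s + 1) - ss N y J u s) ≤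
            β * (((1 - κ)⁻¹ - 1) * ss N y J u s) :=
          mul_le_mul_of_nonneg_left (by linarith) hβ
        have h2 : β * ss N y J u s ≤ 1 + β * (N u).card := by linarith
        have hge0 : 0 ≤ (1 - κ)⁻¹ - 1 := by
          have : 1 ≤ (1 - κ)⁻¹ := (one_le_inv₀ hκ').2 (by linarith)
          linarith
        have h3 : β * (((1 - κ)⁻¹ - 1) * ss N y J u s) ≤
            (1 + β * (N u).card) * ((1 - κ)⁻¹ - 1) := by
          have := mul_le_mul_of_nonneg_right h2 hge0
          linarith
        linarith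
      · rw [i4]
        have := mul_nonneg hβ hs1
        linarith
      · rw [i4]
        ring

/-- hypotheses on the parameters -/
structure Hyp (N : ℕ → Finset ℕ) (p κ β lo : ℝ) (d : ℕ) : Prop where
  p0 : 0 < p
  k0 : 0 < κ
  k1 : κ < 1
  b0 : 0 ≤ β
  lo0 : (1 + β * d) * ((1 - κ)⁻¹ - 1) ≤ lo
  lt : ∀ i, ∀ j ∈ N i, j < i
  card : ∀ i, (N i).card ≤ d
  tri : ∀ i, ∀ j ∈ N i, ∀ k ∈ N i, k ∉ N j

section main

variable {N : ℕ → Finset ℕ} {p κ β lo : ℝ} {d : ℕ}

theorem Hyp.lo1 (h : Hyp N p κ β lo d) (u : ℕ) :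
    (1 + β * (N u).card) * ((1 - κ)⁻¹ - 1) ≤ lo := by
  refine le_trans ?_ h.lo0
  have hκ' : 0 < 1 - κ := by linarith [h.k1]
  have hge0 : 0 ≤ (1 - κ)⁻¹ - 1 := by
    have : 1 ≤ (1 - κ)⁻¹ := (one_le_inv₀ hκ').2 (by linarith [h.k0])
    linarith
  have h2 : ((N u).card : ℝ) ≤ d := by exact_mod_cast h.card u
  exact mul_le_mul_of_nonneg_right (by nlinarith [h.b0]) hge0

theorem Hyp.bd (h : Hyp N p κ β lo d) (u : ℕ) : 1 + β * (N u).card ≤ 1 + β * d := by
  have h2 : ((N u).card : ℝ) ≤ d := by exact_mod_cast h.card u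
  nlinarith [h.b0]

theorem xx_range (h : Hyp N p κ β lo d) (t : ℕ) : ∀ J : Finset ℕ,
    0 ≤ xx N p κ β lo t J ∧ xx N p κ β lo t J ≤ κ := by
  induction t using Nat.strong_induction_on with
  | _ t ih =>
    intro J
    rw [xx_eq]
    unfold val
    split_ifs with hc
    · refine ⟨?_, hc.2⟩
      have h1 := (hh_bounds N κ β lo (fun v => xx N p κ β lo v J) J t h.k0.le h.k1 h.b0 (h.lo1 t)
        h.lt t (fun v hv => (ih v hv J).1) fun v hv => (ih v hv J).2).1
      have h2 : 0 ≤ mm (fun v => xx N p κ β lo v J) (N t) J t :=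
        mm_nonneg _ _ _ _ fun v hv => ((ih v hv J).2).trans h.k1.le
      exact mul_nonneg (mul_nonneg h.p0.le h2) h1
    · exact ⟨le_rfl, h.k0.le⟩

theorem good (h : Hyp N p κ β lo d) : Good N κ (xx N p κ β lo) where
  k0 := h.k0.le
  k1 := h.k1
  lt := h.lt
  nonneg := fun t J => (xx_range h t J).1
  le := fun t J => (xx_range h t J).2
  zero := by
    intro t J j hj hJ
    have hM : mm (fun v => xx N p κ β lo v J) (N t) J t = 0 := by
      unfold mm
      exact prod_eq_zero (mem_range.2 (h.lt t j hj)) (by simp [hj, hJ])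
    rw [xx_eq, val, hM]
    simp
  loc := xx_loc N p κ β lo

/-- the hedge of the process -/
noncomputable def HH (N : ℕ → Finset ℕ) (β lo : ℝ) (x : ℕ → Finset ℕ → ℝ) (u s : ℕ)
    (J : Finset ℕ) : ℝ := hh N β lo (fun v => x v J) J u s

/-- the sum of the martingales -/
noncomputable def SS (N : ℕ → Finset ℕ) (x : ℕ → Finset ℕ → ℝ) (u s : ℕ)
    (J : Finset ℕ) : ℝ := ss N (fun v => x v J) J u s

theorem xx_eq' (t : ℕ) (J : Finset ℕ) : xx N p κ β lo t J =
    if lo ≤ HH N β lo (xx N p κ β lo) t t J ∧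
        p * MM (xx N p κ β lo) (N t) t J * HH N β lo (xx N p κ β lo) t t J ≤ κ then
      p * MM (xx N p κ β lo) (N t) t J * HH N β lo (xx N p κ β lo) t t J else 0 := xx_eq N p κ β lo t J

theorem HH_bounds (h : Hyp N p κ β lo d) (u s : ℕ) (J : Finset ℕ) :
    0 ≤ HH N β lo (xx N p κ β lo) u s J ∧ HH N β lo (xx N p κ β lo) u s J ≤ 1 + β * (N u).card ∧
      (lo ≤ HH N β lo (xx N p κ β lo) u s J → HH N β lo (xx N p κ β lo) u s J =
        1 + β * (N u).card - β * SS N (xx N p κ β lo) u s J) :=
  hh_bounds N κ β lo _ J u h.k0.le h.k1 h.b0 (h.lo1 u) h.lt s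
    (fun v _ => (xx_range h v J).1) fun v _ => (xx_range h v J).2

variable {x : ℕ → Finset ℕ → ℝ}

theorem SS_out (H : Good N κ x) (u t : ℕ) (J : Finset ℕ) (hJ : t ∉ J) :
    SS N x u (t + 1) J = ∑ v ∈ N u, MM x (N v) (min t v) J *
      (if t ∈ N v then (1 - x t J)⁻¹ else 1) := by
  unfold SS ss
  refine sum_congr rfl fun v _ => ?_
  change MM x (N v) (min (t + 1) v) J = _
  rcases le_or_gt v t with hv | hv
  · have e1 : min (t + 1) v = v := by omega
    have e2 : min t v = v := by omega
    rw [e1, e2, if_neg, mul_one]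
    intro h
    have := H.lt v t h
    omega
  · have e1 : min (t + 1) v = t + 1 := by omega
    have e2 : min t v = t := by omega
    rw [e1, e2, MM_out _ _ _ hJ]

theorem SS_in (H : Good N κ x) (u t : ℕ) (J : Finset ℕ) :
    SS N x u (t + 1) (insert t J) = ∑ v ∈ N u, MM x (N v) (min t v) J *
      (if t ∈ N v then 0 else 1) := by
  unfold SS ss
  refine sum_congr rfl fun v _ => ?_
  change MM x (N v) (min (t + 1) v) (insert t J) = _
  rcases le_or_gt v t with hv | hv
  · have e1 : min (t + 1) v = v := by omega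
    have e2 : min t v = v := by omega
    rw [e1, e2, if_neg, mul_one]
    · exact MM_local H _ _ _ _ fun w hw => mem_insert_lt t J w (lt_of_lt_of_le hw hv)
    · intro h
      have := H.lt v t h
      omega
  · have e1 : min (t + 1) v = t + 1 := by omega
    have e2 : min t v = t := by omega
    rw [e1, e2, MM_in H]

theorem SS_def (u t : ℕ) (J : Finset ℕ) :
    SS N x u t J = ∑ v ∈ N u, MM x (N v) (min t v) J := rfl

theorem HH_out (u t : ℕ) (J : Finset ℕ) : HH N β lo x u (t + 1) J =
    if HH N β lo x u t J < lo then HH N β lo x u t J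
      else HH N β lo x u t J - β * (SS N x u (t + 1) J - SS N x u t J) := rfl

theorem HH_in (H : Good N κ x) (u t : ℕ) (J : Finset ℕ) :
    HH N β lo x u (t + 1) (insert t J) =
    if HH N β lo x u t J < lo then HH N β lo x u t J
      else HH N β lo x u t J - β * (SS N x u (t + 1) (insert t J) - SS N x u t J) := by
  have h1 : HH N β lo x u t (insert t J) = HH N β lo x u t J :=
    hh_congr N β lo _ _ _ _ u t
      (fun v hv => H.loc v _ _ fun w hw => mem_insert_lt t J w (hw.trans hv)) (mem_insert_lt t J)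
  have h2 : SS N x u t (insert t J) = SS N x u t J :=
    ss_congr N _ _ _ _ u t
      (fun v hv => H.loc v _ _ fun w hw => mem_insert_lt t J w (hw.trans hv)) (mem_insert_lt t J)
  have h3 := HH_out (N := N) (β := β) (lo := lo) (x := x) u t (insert t J)
  rw [h3, h1, h2]

/-- the mean of the hedge does not change -/
theorem HH_mean (H : Good N κ x) (u t : ℕ) (J : Finset ℕ) (hJ : t ∉ J) :
    x t J * HH N β lo x u (t + 1) (insert t J) + (1 - x t J) * HH N β lo x u (t + 1) J =
      HH N β lo x u t J := by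
  rw [HH_in H, HH_out]
  split_ifs with h
  · ring
  · have hS : x t J * SS N x u (t + 1) (insert t J) + (1 - x t J) * SS N x u (t + 1) J =
        SS N x u t J := by
      rw [SS_in H, SS_out H u t J hJ, SS_def, mul_sum, mul_sum, ← sum_add_distrib]
      refine sum_congr rfl fun v _ => ?_
      have hne := (one_sub_pos H t J).ne'
      split_ifs
      · field_simp
        ring
      · ring
    linear_combination (-β) * hS

/-- the hedge decreases if `t` is not chosen -/
theorem HH_out_le (H : Good N κ x) (hβ : 0 ≤ β) (u t : ℕ) (J : Finset ℕ) (hJ : t ∉ J) :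
    HH N β lo x u (t + 1) J ≤ HH N β lo x u t J := by
  rw [HH_out]
  split_ifs with h
  · exact le_rfl
  · have hS : SS N x u t J ≤ SS N x u (t + 1) J := by
      rw [SS_out H u t J hJ, SS_def]
      refine sum_le_sum fun v _ => ?_
      have h0 := MM_nonneg H (N v) (min t v) J
      have h1 : 1 ≤ (if t ∈ N v then (1 - x t J)⁻¹ else 1) := by
        split_ifs
        · exact (one_le_inv₀ (one_sub_pos H t J)).2 (by linarith [H.nonneg t J])
        · exact le_rfl
      nlinarith
    have := mul_nonneg hβ (sub_nonneg.2 hS)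
    linarith

/-- the hedge of `u` does not change at an earlier neighbour of `u` -/
theorem HH_out_eq (H : Good N κ x) (htri : ∀ i, ∀ j ∈ N i, ∀ k ∈ N i, k ∉ N j) (u t : ℕ)
    (J : Finset ℕ) (hJ : t ∉ J) (ht : t ∈ N u) :
    HH N β lo x u (t + 1) J = HH N β lo x u t J := by
  rw [HH_out]
  split_ifs with h
  · rfl
  · have hS : SS N x u (t + 1) J = SS N x u t J := by
      rw [SS_out H u t J hJ, SS_def]
      refine sum_congr rfl fun v hv => ?_
      rw [if_neg (htri u v hv t ht), mul_one]
    rw [hS]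
    ring

/-- the step -/
theorem step (H : Good N κ x) (htri : ∀ i, ∀ j ∈ N i, ∀ k ∈ N i, k ∉ N j) (A : Finset ℕ) (u t : ℕ)
    (hA : t ∈ A → t ∉ N u) (J : Finset ℕ) (hJ : t ∉ J) :
    x t J * (MM x A (t + 1) (insert t J) *
        (MM x (N u) (t + 1) (insert t J) * HH N β lo x u (t + 1) (insert t J))) +
      (1 - x t J) * (MM x A (t + 1) J * (MM x (N u) (t + 1) J * HH N β lo x u (t + 1) J)) =
    MM x A t J * (MM x (N u) t J *
      (if t ∈ A then HH N β lo x u (t + 1) J else HH N β lo x u t J)) := by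
  have hne := (one_sub_pos H t J).ne'
  rw [MM_in H, MM_in H, MM_out A t J hJ, MM_out (N u) t J hJ]
  by_cases h1 : t ∈ A
  · have h2 := hA h1
    rw [if_pos h1, if_pos h1, if_pos h1, if_neg h2, if_neg h2]
    field_simp
    ring
  · rw [if_neg h1, if_neg h1, if_neg h1]
    by_cases h2 : t ∈ N u
    · rw [if_pos h2, if_pos h2, HH_out_eq H htri u t J hJ h2]
      field_simp
      ring
    · rw [if_neg h2, if_neg h2]
      have h3 := HH_mean (β := β) (lo := lo) H u t J hJ
      linear_combination (MM x A t J * MM x (N u) t J) * h3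

/-- mean of `M_u h_u` -/
theorem mean_eq (H : Good N κ x) (htri : ∀ i, ∀ j ∈ N i, ∀ k ∈ N i, k ∉ N j) (u : ℕ) :
    EE x u (fun J => MM x (N u) u J * HH N β lo x u u J) = 1 := by
  have h := EE_step_eq H (fun t J => MM x (N u) t J * HH N β lo x u t J) u (by
    intro t _ J hJ
    have h1 := step (β := β) (lo := lo) H htri ∅ u t (fun h => absurd h (notMem_empty _)) J
      (not_mem_of_subset_range hJ.1)
    have e : ∀ (s : ℕ) (K : Finset ℕ), MM x ∅ s K = 1 := by
      intro s K
      unfold MM mm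
      simp
    rw [e, e, e, if_neg (notMem_empty _), one_mul, one_mul, one_mul] at h1
    exact h1)
  rw [h]
  change MM x (N u) 0 ∅ * HH N β lo x u 0 ∅ = 1
  rw [MM_zero]
  change 1 * 1 = (1 : ℝ)
  ring

/-- mean of `M_w M_u h_u` for an earlier neighbour `u` of `w` -/
theorem mean_le (H : Good N κ x) (hβ : 0 ≤ β) (htri : ∀ i, ∀ j ∈ N i, ∀ k ∈ N i, k ∉ N j)
    (hh0 : ∀ u s J, 0 ≤ HH N β lo x u s J) (w u : ℕ) (hu : u ∈ N w) :
    EE x u (fun J => MM x (N w) u J * (MM x (N u) u J * HH N β lo x u u J)) ≤ 1 := by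
  have h := EE_step_le H (fun t J => MM x (N w) t J * (MM x (N u) t J * HH N β lo x u t J)) u (by
    intro t _ J hJ
    have h1 := step (β := β) (lo := lo) H htri (N w) u t (fun h => htri w u hu t h) J
      (not_mem_of_subset_range hJ.1)
    rw [h1]
    refine mul_le_mul_of_nonneg_left (mul_le_mul_of_nonneg_left ?_ (MM_nonneg H _ _ _))
      (MM_nonneg H _ _ _)
    split_ifs
    · exact HH_out_le H hβ u t J (not_mem_of_subset_range hJ.1)
    · exact le_rfl)
  refine h.trans (le_of_eq ?_)
  change MM x (N w) 0 ∅ * (MM x (N u) 0 ∅ * HH N β lo x u 0 ∅) = 1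
  rw [MM_zero, MM_zero]
  change 1 * (1 * 1) = (1 : ℝ)
  ring

theorem xx_le_MM (h : Hyp N p κ β lo d) (t : ℕ) (J : Finset ℕ) :
    xx N p κ β lo t J ≤ p * (MM (xx N p κ β lo) (N t) t J * HH N β lo (xx N p κ β lo) t t J) := by
  rw [xx_eq' t J, mul_assoc]
  split_ifs
  · exact le_rfl
  · exact mul_nonneg h.p0.le (mul_nonneg (MM_nonneg (good h) _ _ _) (HH_bounds h t t J).1)

theorem cross (h : Hyp N p κ β lo d) (w u : ℕ) (hu : u ∈ N w) :
    EE (xx N p κ β lo) w (fun J => MM (xx N p κ β lo) (N w) w J * xx N p κ β lo u J) ≤ p := by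
  have H := good h
  have huw := h.lt w u hu
  rw [EE_mart H (N w) u (fun J => xx N p κ β lo u J) ?_ w huw.le]
  · have h1 : EE (xx N p κ β lo) u (fun J => MM (xx N p κ β lo) (N w) u J * xx N p κ β lo u J)
        ≤ EE (xx N p κ β lo) u (fun J => p * (MM (xx N p κ β lo) (N w) u J *
          (MM (xx N p κ β lo) (N u) u J * HH N β lo (xx N p κ β lo) u u J))) := by
      refine EE_mono H u _ _ fun J _ => ?_
      have h2 := mul_le_mul_of_nonneg_left (xx_le_MM h u J) (MM_nonneg H (N w) u J)
      beta_reduce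
      linarith
    refine h1.trans ?_
    rw [EE_const_mul]
    have h2 := mul_le_mul_of_nonneg_left
      (mean_le (β := β) (lo := lo) H h.b0 h.tri (fun u s J => (HH_bounds h u s J).1) w u hu) h.p0.le
    linarith
  · intro t ht J _
    refine H.loc u _ _ fun w' hw' => ?_
    exact mem_insert_lt t J w' (lt_of_lt_of_le hw' ht)

/-- the lower bound of the probability of `w` -/
theorem prob_bound (h : Hyp N p κ β lo d) (w : ℕ) (D ell : ℝ)
    (hD : D = (1 - κ) * Real.log (κ / (p * (1 + β * d)))) (hD0 : 0 < D) (hell : 0 ≤ ell)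
    (hell1 : (1 + β * d) - β * (D / (p * (1 + β * d))) ≤ ell) :
    p * (1 - lo - ell * (p * d / D)) ≤ EE (xx N p κ β lo) w (fun J => xx N p κ β lo w J) := by
  have H := good h
  set x := xx N p κ β lo with hx
  have hκ' : 0 < 1 - κ := by linarith [h.k1]
  have hp := h.p0
  set Hd : ℝ := 1 + β * d with hHd
  have hd0 : (0 : ℝ) ≤ d := Nat.cast_nonneg _
  have hHd0 : 0 < Hd := by
    have := mul_nonneg h.b0 hd0
    rw [hHd]
    linarith
  have hlo0 : 0 ≤ lo := by
    refine le_trans (mul_nonneg hHd0.le ?_) h.lo0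
    have : 1 ≤ (1 - κ)⁻¹ := (one_le_inv₀ hκ').2 (by linarith [h.k0])
    linarith
  have hpt : ∀ J, Ind N w J → p * (MM x (N w) w J * HH N β lo x w w J) +
      ((-(lo * p)) * MM x (N w) w J + (-(ell * p / D)) * ∑ v ∈ N w, MM x (N w) w J * x v J) ≤
        x w J := by
    intro J _
    have hM0 := MM_nonneg H (N w) w J
    have hS0 : 0 ≤ ∑ v ∈ N w, x v J := sum_nonneg fun v _ => H.nonneg v J
    obtain ⟨b1, b2, b3⟩ := HH_bounds h w w J
    rw [← hx] at b1 b2 b3
    have b2' : HH N β lo x w w J ≤ Hd := b2.trans (h.bd w)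
    have hx0 := H.nonneg w J
    rw [← mul_sum]
    have hlast : 0 ≤ ell * p / D * (MM x (N w) w J * ∑ v ∈ N w, x v J) :=
      mul_nonneg (div_nonneg (mul_nonneg hell hp.le) hD0.le) (mul_nonneg hM0 hS0)
    by_cases hst : HH N β lo x w w J < lo
    · have h1 : p * (MM x (N w) w J * HH N β lo x w w J) ≤ lo * p * MM x (N w) w J := by
        have := mul_le_mul_of_nonneg_left hst.le (mul_nonneg hp.le hM0)
        linarith
      linarith
    · push Not at hst
      have hlast2 : 0 ≤ lo * p * MM x (N w) w J := mul_nonneg (mul_nonneg hlo0 hp.le) hM0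
      by_cases hk : p * MM x (N w) w J * HH N β lo x w w J ≤ κ
      · have h1 : x w J = p * MM x (N w) w J * HH N β lo x w w J := by
          have := xx_eq' (N := N) (p := p) (κ := κ) (β := β) (lo := lo) w J
          rw [← hx] at this
          rw [this, if_pos ⟨hst, hk⟩]
        rw [h1]
        linarith
      · push Not at hk
        have h1 := MM_le_exp H (N w) w (h.lt w) J
        have h2 : κ / (p * Hd) < Real.exp ((∑ v ∈ N w, x v J) / (1 - κ)) := by
          refine lt_of_lt_of_le ?_ h1
          rw [div_lt_iff₀ (mul_pos hp hHd0)]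
          have h3 := mul_le_mul_of_nonneg_left b2' (mul_nonneg hp.le hM0)
          linarith
        have h3 : Real.log (κ / (p * Hd)) < (∑ v ∈ N w, x v J) / (1 - κ) :=
          (Real.log_lt_iff_lt_exp (div_pos h.k0 (mul_pos hp hHd0))).2 h2
        rw [lt_div_iff₀ hκ'] at h3
        have h4 : D ≤ ∑ v ∈ N w, x v J := by rw [hD]; linarith
        have h5 : ∑ v ∈ N w, x v J ≤ p * Hd * SS N x w w J := by
          rw [SS_def, mul_sum]
          refine sum_le_sum fun v hv => ?_
          have e : min w v = v := by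
            have := h.lt w v hv
            omega
          rw [e]
          have h6 := xx_le_MM h v J
          rw [← hx] at h6
          have h7 : HH N β lo x v v J ≤ Hd := by
            have := (HH_bounds h v v J).2.1
            rw [← hx] at this
            exact this.trans (h.bd v)
          have h8 := MM_nonneg H (N v) v J
          have h9 := mul_le_mul_of_nonneg_left h7 (mul_nonneg hp.le h8)
          calc x v J ≤ p * (MM x (N v) v J * HH N β lo x v v J) := h6
            _ = p * MM x (N v) v J * HH N β lo x v v J := by ring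
            _ ≤ p * MM x (N v) v J * Hd := h9
            _ = _ := by ring
        have h6 : D / (p * Hd) ≤ SS N x w w J := by
          rw [div_le_iff₀ (mul_pos hp hHd0)]
          linarith
        have h7 : HH N β lo x w w J ≤ ell := by
          rw [b3 hst]
          have h8 := mul_le_mul_of_nonneg_left h6 h.b0
          have h9 := h.bd w
          linarith
        have h8 : 1 ≤ (∑ v ∈ N w, x v J) / D := by
          rw [le_div_iff₀ hD0]
          linarith
        have h9 : p * (MM x (N w) w J * HH N β lo x w w J) ≤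
            ell * p / D * (MM x (N w) w J * ∑ v ∈ N w, x v J) := by
          calc p * (MM x (N w) w J * HH N β lo x w w J)
              ≤ p * (MM x (N w) w J * ell) :=
                mul_le_mul_of_nonneg_left (mul_le_mul_of_nonneg_left h7 hM0) hp.le
            _ = (p * MM x (N w) w J * ell) * 1 := by ring
            _ ≤ (p * MM x (N w) w J * ell) * ((∑ v ∈ N w, x v J) / D) :=
                mul_le_mul_of_nonneg_left h8 (mul_nonneg (mul_nonneg hp.le hM0) hell)
            _ = _ := by ring
        linarith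
  have h1 := EE_mono H w _ _ hpt
  rw [EE_add, EE_const_mul, EE_add, EE_const_mul, EE_const_mul, EE_sum, EE_MM H,
    mean_eq H h.tri] at h1
  have h2 : ∑ v ∈ N w, EE x w (fun J => MM x (N w) w J * x v J) ≤ d * p := by
    calc ∑ v ∈ N w, EE x w (fun J => MM x (N w) w J * x v J) ≤ ∑ v ∈ N w, p :=
          sum_le_sum fun v hv => cross h w v hv
      _ = (N w).card * p := by rw [sum_const, nsmul_eq_mul]
      _ ≤ d * p := mul_le_mul_of_nonneg_right (by exact_mod_cast h.card w) hp.le
  have h3 : ell * p / D * ∑ v ∈ N w, EE x w (fun J => MM x (N w) w J * x v J) ≤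
      ell * p / D * (d * p) :=
    mul_le_mul_of_nonneg_left h2 (div_nonneg (mul_nonneg hell hp.le) hD0.le)
  have h4 : p * (1 - lo - ell * (p * d / D)) = p - lo * p - ell * p / D * (d * p) := by
    field_simp
  rw [h4]
  linarith

end main

end Pool.Agent.Helper25.GT
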